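import Mathlib
import Pool.Agent.H72.ResGen

namespace Pool.Agent.Results.MP_49fec2_al.Counter

open Pool.Agent.H72.VarDefs

theorem result : ∃ (S : Set (FreeGroup ℕ)) (k n : ℕ), k < n ∧ Generates S (RelFree S k) ∧
    ∃ g : RelFree S n, g ≠ 1 ∧
      ∀ (N : Subgroup (RelFree S n)) [N.Normal], IsGenBy k (RelFree S n ⧸ N) → g ∈ N :=
  ⟨Pool.Agent.H72.ResGen.S, 2, 3, by norm_num, Pool.Agent.H72.ResGen.main⟩

end Pool.Agent.Results.MP_49fec2_al.Counter
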